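import Pool.Agent.TH138.LG.Conv
import Pool.Agent.Y719.SU.Main

set_option autoImplicit false

/-!
# Lang's equivalence for points whose digits form an iterative language
-/

namespace Pool.Agent.V11322.LG

open MvPolynomial Pool.Agent.H533R3.SL Pool.Agent.TH138.LG Pool.Agent.Y719.SU
open Pool.Agent.TH143.HE (RCur nc_iff eval₂_eval eval₂_smul_homog)
open scoped LinearAlgebra.Projectivization

variable {K : Type} [Field K] {N : ℕ}

/-- the points of projective space represented by the words of `𝓛` -/
def reprPts {L A : Type} [Field L] (b : L) (act : ℕ → Fin (N + 1) → Bool)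
    (δ : ℕ → A → Fin (N + 1) → L) (𝓛 : Set (List (Option A))) : Set (ℙ L (Fin (N + 1) → L)) :=
  {P | ∃ w ∈ 𝓛, ∃ h : value b act δ w ≠ 0, P = Projectivization.mk L (value b act δ w) h}

/-- The words of `𝓛` contain a bounded number of separators, and all of them represent points of the
projective variety given by the forms in `I`. -/
def LanguageOn {L A : Type} [Field L] [Algebra K L] (I : Ideal (MvPolynomial (Fin (N + 1)) K))
    (b : L) (act : ℕ → Fin (N + 1) → Bool) (δ : ℕ → A → Fin (N + 1) → L)
    (𝓛 : Set (List (Option A))) : Prop :=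
  (∃ m : ℕ, ∀ w ∈ 𝓛, w.countP Option.isNone ≤ m) ∧
    ∀ w ∈ 𝓛, value b act δ w ≠ 0 ∧ OnI (algebraMap K L) I (value b act δ w)

/-- For all fields `L ⊇ K`, all bases `b` in `L` (not zero and not roots of unity), all alphabets,
all systems of digits in `L` and all iterative languages of points of `X`, all the represented points
outside `Z` are represented by words of the language of length less than `p`. -/
def DigitShort (I I' : Ideal (MvPolynomial (Fin (N + 1)) K)) : Prop :=
  ∀ (L : Type) [Field L] [Algebra K L] (b : L), b ≠ 0 → (∀ m : ℕ, 0 < m → b ^ m ≠ 1) →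
    ∀ (A : Type) (act : ℕ → Fin (N + 1) → Bool) (δ : ℕ → A → Fin (N + 1) → L) (s p : ℕ)
      (𝓛 : Set (List (Option A))), Iterative s p 𝓛 → LanguageOn I b act δ 𝓛 →
      reprPts b act δ 𝓛 \ Pts L I' = reprPts b act δ {w | w ∈ 𝓛 ∧ w.length < p} \ Pts L I'

/-- For all number fields `L ⊇ K` and all iterative languages in a finite alphabet, without
separators, whose words represent points of `X` when they are read with the base `2` and digits in
`L`, the number of the represented points outside `Z` is finite. -/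
def DigitFinite (I I' : Ideal (MvPolynomial (Fin (N + 1)) K)) : Prop :=
  ∀ (L : Type) [Field L] [NumberField L] [Algebra K L] (A : Type) [Finite A]
    (δ : A → Fin (N + 1) → L) (s p : ℕ) (𝓛 : Set (List (Option A))), Iterative s p 𝓛 →
    (∀ w ∈ 𝓛, w.countP Option.isNone = 0) →
    LanguageOn I (2 : L) (fun _ _ => true) (fun _ => δ) 𝓛 →
    (reprPts (2 : L) (fun _ _ => true) (fun _ => δ) 𝓛 \ Pts L I').Finite

theorem reprPts_finite {L A : Type} [Field L] [Finite A] (b : L) (act : ℕ → Fin (N + 1) → Bool)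
    (δ : ℕ → A → Fin (N + 1) → L) (𝓛 : Set (List (Option A))) (p : ℕ) :
    (reprPts b act δ {w | w ∈ 𝓛 ∧ w.length < p}).Finite := by
  classical
  have h1 : {w : List (Option A) | w.length < p}.Finite := List.finite_length_lt (Option A) p
  refine (h1.image (fun w => if h : value b act δ w ≠ 0 then
    Projectivization.mk L (value b act δ w) h else
      Projectivization.mk L (fun _ => 1) (fun h => one_ne_zero (congrFun h 0)))).subset ?_
  rintro P ⟨w, hw, h, rfl⟩
  exact ⟨w, hw.2, by simp [dif_pos h]⟩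

theorem onI_cross {L : Type} [Field L] {φ : K →+* L} {I' : Ideal (MvPolynomial (Fin (N + 1)) K)}
    {x y : Fin (N + 1) → L} (hx : x ≠ 0) (h : ∀ i j, x i * y j = x j * y i)
    (h0 : OnI φ I' x) : OnI φ I' y := by
  obtain ⟨j, hj⟩ : ∃ j, x j ≠ 0 := by
    by_contra hcon
    push Not at hcon
    exact hx (funext hcon)
  have h1 : y = fun i => (y j / x j) * x i := by
    funext i
    have := h i j
    field_simp
    linear_combination -this
  rw [h1]
  exact onI_smul h0 _

/-- a pumped family of points of `X`: either the point is in `Z` or a shorter word represents the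
same point -/
theorem dichotomyZ {L : Type} [Field L] [Algebra K L] [Infinite L]
    {I I' : Ideal (MvPolynomial (Fin (N + 1)) K)}
    (hno : ∀ p : Fin (N + 1) → Polynomial L, ¬ RCur (algebraMap K L) I I' p) (r : ℕ)
    (b : L) (hb0 : b ≠ 0) (hb : ∀ m : ℕ, 0 < m → b ^ m ≠ 1)
    (f : ℕ → Fin (N + 1) → L) (e : Fin r → ℕ) (c : Fin r → Fin (N + 1) → L)
    (hf : ∀ k j, f k j = ∑ i, c i j * (b ^ k) ^ e i)
    (hX : ∀ k, OnI (algebraMap K L) I (f k)) :
    OnI (algebraMap K L) I' (f 1) ∨ ∀ i j, f 0 i * f 1 j = f 0 j * f 1 i := by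
  classical
  let c' : Fin r → Fin (N + 1) → L := fun i j => c i j * b ^ e i
  have hev : ∀ (t : ℕ) (j : Fin (N + 1)), (cur c' e j).eval (b ^ t) = f (t + 1) j := by
    intro t j
    unfold cur
    rw [Polynomial.eval_finsetSum, hf]
    refine Finset.sum_congr rfl fun i _ => ?_
    simp only [c', Polynomial.eval_mul, Polynomial.eval_C, Polynomial.eval_pow,
      Polynomial.eval_X, pow_succ b t, mul_pow]
    ring
  have hev0 : ∀ j : Fin (N + 1), (cur c' e j).eval b⁻¹ = f 0 j := by
    intro j
    unfold cur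
    rw [Polynomial.eval_finsetSum, hf]
    refine Finset.sum_congr rfl fun i _ => ?_
    simp only [c', Polynomial.eval_mul, Polynomial.eval_C, Polynomial.eval_pow,
      Polynomial.eval_X, pow_zero, one_pow, mul_one, inv_pow]
    field_simp
  have hev1 : ∀ j : Fin (N + 1), (cur c' e j).eval 1 = f 1 j := by
    intro j
    have := hev 0 j
    rwa [pow_zero] at this
  have hcur : ∀ G ∈ I, (∃ d, G.IsHomogeneous d) →
      eval₂ (Polynomial.C.comp (algebraMap K L)) (cur c' e) G = 0 := by
    intro G hG hd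
    refine Polynomial.eq_zero_of_infinite_isRoot _
      (Set.Infinite.mono ?_ (Set.infinite_range_of_injective (pow_injective hb0 hb)))
    rintro _ ⟨t, rfl⟩
    show Polynomial.eval (b ^ t) _ = 0
    rw [eval₂_eval]
    have h1 : (fun j => (cur c' e j).eval (b ^ t)) = f (t + 1) := funext (hev t)
    rw [h1]
    exact hX (t + 1) G hG hd
  by_cases hZ : ∀ G ∈ I', (∃ d, G.IsHomogeneous d) →
      eval₂ (Polynomial.C.comp (algebraMap K L)) (cur c' e) G = 0
  · left
    intro G hG hd
    have h1 := congrArg (Polynomial.eval 1) (hZ G hG hd)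
    rw [eval₂_eval, Polynomial.eval_zero] at h1
    have h2 : (fun j => (cur c' e j).eval 1) = f 1 := funext hev1
    rwa [h2] at h1
  · right
    push Not at hZ
    obtain ⟨G', hG', hd', hne⟩ := hZ
    intro i j
    by_contra hcr
    refine hno (cur c' e) ⟨hcur, ⟨G', hG', hd', hne⟩, (nc_iff _).2 ⟨i, j, b⁻¹, 1, ?_⟩⟩
    rw [hev0, hev0, hev1, hev1]
    exact hcr

/-- no rational curves over any field -/
theorem noRat_field (I I' : Ideal (MvPolynomial (Fin (N + 1)) K)) [NumberField K]
    (h : NoRatNF I I') (L : Type) [Field L] [Algebra K L]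
    (p : Fin (N + 1) → Polynomial L) : ¬ RCur (algebraMap K L) I I' p := by
  intro hp
  have hp1 : RCur ((algebraMap K L).comp (RingHom.id K)) I I' p := hp
  obtain ⟨E, _, _, _, p', hp'⟩ := RCur.spec (k := K) (E := L) (RingHom.id K) hp1
  have hchar : CharZero E := charZero_of_injective_algebraMap (algebraMap K E).injective
  have hfin : FiniteDimensional ℚ E := FiniteDimensional.trans ℚ K E
  have hnf : NumberField E := ⟨⟩
  rw [RingHom.comp_id] at hp'
  exact h E _ hp'

theorem digitShort_of_noRat [NumberField K] {I I' : Ideal (MvPolynomial (Fin (N + 1)) K)}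
    (h : NoRatNF I I') : DigitShort I I' := by
  classical
  intro L _ _ b hb0 hb A act δ s p 𝓛 hit ⟨⟨m, hsep⟩, hX⟩
  haveI : CharZero L := charZero_of_injective_algebraMap (algebraMap K L).injective
  haveI : Infinite L := Infinite.of_injective (fun n : ℕ => (n : L)) Nat.cast_injective
  have hno := noRat_field I I' h L
  have key : ∀ (M : ℕ) (w : List (Option A)), w.length ≤ M → w ∈ 𝓛 →
      ¬ OnI (algebraMap K L) I' (value b act δ w) → ∃ w' ∈ 𝓛, w'.length < p ∧
        ∀ i j, value b act δ w' i * value b act δ w j =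
          value b act δ w' j * value b act δ w i := by
    intro M
    induction M with
    | zero =>
      intro w hw hw𝓛 hwG
      by_cases hp : w.length < p
      · exact ⟨w, hw𝓛, hp, fun i j => by ring⟩
      · exfalso
        obtain ⟨u, ps, _, h2, h3, _⟩ := hit w hw𝓛 (by omega)
        have := length_pumped_lt u ps h2
        rw [← h3] at this
        omega
    | succ M ih =>
      intro w hw hw𝓛 hwG
      by_cases hp : w.length < p
      · exact ⟨w, hw𝓛, hp, fun i j => by ring⟩
      · obtain ⟨u, ps, h1, h2, h3, h4⟩ := hit w hw𝓛 (by omega)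
        have hlt := length_pumped_lt u ps h2
        rw [← h3] at hlt
        have hnone : ∀ q ∈ ps, none ∉ q.1 := by
          intro q hq hn
          have h5 := countP_pumped Option.isNone (m + 1) u ps q hq
          have h6 : 1 ≤ q.1.countP Option.isNone := List.countP_pos_iff.2 ⟨none, hn, rfl⟩
          have h7 := hsep _ (h4 (m + 1))
          have h8 : (m + 1) * 1 ≤ (m + 1) * q.1.countP Option.isNone := Nat.mul_le_mul_left _ h6
          omega
        obtain ⟨e', c, hc⟩ := value_pumped (ι := Fin (N + 1)) b act δ hb u ps hnone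
        have h8 := dichotomyZ hno _ b hb0 hb (fun k => value b act δ (pumped k u ps)) e' c hc
            (fun k => (hX _ (h4 k)).2)
        simp only [← h3] at h8
        rcases h8 with h8 | h8
        · exact absurd h8 hwG
        · have h9 : ¬ OnI (algebraMap K L) I' (value b act δ (pumped 0 u ps)) := by
            intro h10
            exact hwG (onI_cross (hX _ (h4 0)).1 h8 h10)
          obtain ⟨w', hw', hw'p, hw'c⟩ := ih _ (by omega) (h4 0) h9
          refine ⟨w', hw', hw'p, ?_⟩
          have e1 := mk_eq_of_cross (hX _ (h4 0)).1 (hX _ hw𝓛).1 h8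
          have e2 := mk_eq_of_cross (hX _ hw').1 (hX _ (h4 0)).1 hw'c
          have e3 := e2.trans e1
          rw [Projectivization.mk_eq_mk_iff'] at e3
          obtain ⟨t, ht⟩ := e3
          intro i j
          rw [← ht]
          simp only [Pi.smul_apply, smul_eq_mul]
          ring
  ext P
  constructor
  · rintro ⟨⟨w, hw, h, rfl⟩, hZ⟩
    refine ⟨?_, hZ⟩
    rw [mem_pts h] at hZ
    obtain ⟨w', hw', hw'p, hc⟩ := key _ w le_rfl hw hZ
    exact ⟨w', ⟨hw', hw'p⟩, (hX _ hw').1, (mk_eq_of_cross (hX _ hw').1 h hc).symm⟩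
  · rintro ⟨⟨w, hw, h, rfl⟩, hZ⟩
    exact ⟨⟨w, hw.1, h, rfl⟩, hZ⟩

theorem digitFinite_of_short {I I' : Ideal (MvPolynomial (Fin (N + 1)) K)}
    (h : DigitShort I I') : DigitFinite I I' := by
  intro L _ _ _ A _ δ s p 𝓛 hit hsep hX
  have hb : ∀ m : ℕ, 0 < m → (2 : L) ^ m ≠ 1 := by
    intro m hm h
    have h5 : ((2 ^ m : ℕ) : L) = ((1 : ℕ) : L) := by push_cast; exact h
    have h6 : 2 ^ m = 1 := Nat.cast_injective h5
    have h7 : 1 < 2 ^ m := Nat.one_lt_two_pow (by omega)
    omega
  rw [h L 2 two_ne_zero hb A (fun _ _ => true) (fun _ => δ) s p 𝓛 hit hX]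
  exact (reprPts_finite _ _ _ 𝓛 p).subset Set.sdiff_subset

/-- the values of a nonconstant rational curve: each point is attained finitely often -/
theorem fibre_finite' {L : Type} [Field L] (p : Fin (N + 1) → Polynomial L)
    (hnc : ∃ j k i i', (p j).coeff i * (p k).coeff i' ≠ (p k).coeff i * (p j).coeff i')
    (b : L) (hb0 : b ≠ 0) (hb : ∀ m : ℕ, 0 < m → b ^ m ≠ 1) (y : Fin (N + 1) → L) (hy : y ≠ 0) :
    {q : ℕ | ∀ i j, (p i).eval (b ^ (q + 1)) * y j = (p j).eval (b ^ (q + 1)) * y i}.Finite := by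
  by_contra hinf
  obtain ⟨j0, hj0⟩ : ∃ j, y j ≠ 0 := by
    by_contra hcon
    push Not at hcon
    exact hy (funext hcon)
  have hcr : ∀ i j, p i * Polynomial.C (y j) = p j * Polynomial.C (y i) := by
    intro i j
    rw [← sub_eq_zero]
    refine Polynomial.eq_zero_of_infinite_isRoot _ (Set.Infinite.mono ?_
      ((Set.Infinite.image (f := fun q : ℕ => b ^ (q + 1)) ?_ hinf)))
    · rintro _ ⟨q, hq, rfl⟩
      show Polynomial.eval _ _ = 0
      simp only [Polynomial.eval_sub, Polynomial.eval_mul, Polynomial.eval_C]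
      rw [sub_eq_zero]
      exact hq i j
    · intro q _ q' _ h
      have := pow_injective hb0 hb h
      simpa using this
  have hco : ∀ i a, (p i).coeff a = (p j0).coeff a * (y i / y j0) := by
    intro i a
    have h1 := congrArg (fun P => Polynomial.coeff P a) (hcr i j0)
    simp only [Polynomial.coeff_mul_C] at h1
    field_simp
    linear_combination h1
  obtain ⟨j, k, i, i', h⟩ := hnc
  apply h
  rw [hco j i, hco k i', hco k i, hco j i']
  ring

theorem noRat_of_digitFinite [NumberField K] {I I' : Ideal (MvPolynomial (Fin (N + 1)) K)}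
    (hfin : DigitFinite I I') : NoRatNF I I' := by
  classical
  intro L _ _ _ p hp
  obtain ⟨h1, ⟨G', hG', hGh, hne⟩, h3⟩ := hp
  set D : ℕ := Finset.univ.sup fun i => (p i).natDegree with hDdef
  have hD : ∀ i, (p i).natDegree ≤ D := fun i => Finset.le_sup (f := fun i => (p i).natDegree)
    (Finset.mem_univ i)
  have hb0 : (2 : L) ≠ 0 := two_ne_zero
  have hb : ∀ m : ℕ, 0 < m → (2 : L) ^ m ≠ 1 := by
    intro m hm h
    have h4 : ((2 ^ m : ℕ) : L) = ((1 : ℕ) : L) := by push_cast; exact h
    have h5 : 2 ^ m = 1 := Nat.cast_injective h4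
    have h6 : 1 < 2 ^ m := Nat.one_lt_two_pow (by omega)
    omega
  have hDpos : 1 ≤ D := by
    by_contra hcon
    have hD0 : D = 0 := by omega
    obtain ⟨i, j, a, a', hij⟩ := h3
    apply hij
    have hi : ∀ i, p i = Polynomial.C ((p i).coeff 0) := fun i =>
      Polynomial.eq_C_of_natDegree_le_zero (hD0 ▸ hD i)
    by_cases ha : a = 0
    · by_cases ha' : a' = 0
      · rw [ha, ha', mul_comm]
      · rw [hi i, hi j, Polynomial.coeff_C_of_ne_zero ha', Polynomial.coeff_C_of_ne_zero ha']
        simp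
    · rw [hi i, hi j, Polynomial.coeff_C_of_ne_zero ha, Polynomial.coeff_C_of_ne_zero ha]
      simp
  obtain ⟨i0, hi0⟩ : ∃ i, p i ≠ 0 := by
    by_contra hcon
    push Not at hcon
    obtain ⟨i, j, a, a', hij⟩ := h3
    exact hij (by rw [hcon i, hcon j])
  have hroots : ∀ P : Polynomial L, P ≠ 0 → {q : ℕ | P.eval ((2 : L) ^ (q + 1)) = 0}.Finite := by
    intro P hP
    refine Set.Finite.of_finite_image (f := fun q : ℕ => (2 : L) ^ (q + 1))
      ((P.roots.toFinset.finite_toSet).subset ?_) ?_
    · rintro _ ⟨q, hq, rfl⟩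
      simpa [hP] using hq
    · intro q _ q' _ h
      have := pow_injective hb0 hb h
      simpa using this
  obtain ⟨q0, hq0⟩ : ∃ q0, ∀ q, q0 ≤ q → (p i0).eval ((2 : L) ^ (q + 1)) ≠ 0 := by
    obtain ⟨B, hB⟩ := (hroots _ hi0).bddAbove
    exact ⟨B + 1, fun q hq h => by have := hB h; omega⟩
  have hδ : (fun _ : ℕ => δp p D 0) = δp p D := by
    funext i a
    cases a <;> rfl
  have hv : ∀ q, value (2 : L) (fun _ _ => true) (fun _ => δp p D 0) (Wd D q) =
      fun i => (p i).eval ((2 : L) ^ (q + 1)) := fun q => by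
    rw [hδ]
    exact value_Wd p D hD 2 q
  have hval : ∀ q, q0 ≤ q →
      value (2 : L) (fun _ _ => true) (fun _ => δp p D 0) (Wd D q) ≠ 0 := by
    intro q hq
    rw [hv]
    exact fun h => hq0 q hq (congrFun h i0)
  have hf := hfin L (Option (Fin (D + 1))) (δp p D 0) D (1 + D * (q0 + 1) + 1)
    {w | ∃ q, q0 ≤ q ∧ w = Wd D q} ?_ ?_ ?_
  · have hbad := hroots _ hne
    have hcov : Set.univ ⊆ {q : ℕ | q < q0} ∪ {q : ℕ |
        (eval₂ (Polynomial.C.comp (algebraMap K L)) p G').eval ((2 : L) ^ (q + 1)) = 0} ∪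
        ⋃ P ∈ (reprPts (2 : L) (fun _ _ => true) (fun _ => δp p D 0)
          {w | ∃ q, q0 ≤ q ∧ w = Wd D q} \ Pts L I'), {q : ℕ | ∀ i j,
            (p i).eval ((2 : L) ^ (q + 1)) *
            P.rep j = (p j).eval ((2 : L) ^ (q + 1)) * P.rep i} := by
      intro q _
      by_cases hq : q < q0
      · exact Or.inl (Or.inl hq)
      · by_cases hq2 : (eval₂ (Polynomial.C.comp (algebraMap K L)) p G').eval
            ((2 : L) ^ (q + 1)) = 0
        · exact Or.inl (Or.inr hq2)
        · right
          have hne := hval q (by omega)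
          simp only [Set.mem_iUnion]
          refine ⟨Projectivization.mk L _ hne, ⟨⟨Wd D q, ⟨q, by omega, rfl⟩, hne, rfl⟩, ?_⟩, ?_⟩
          · intro hZ
            rw [mem_pts hne, hv] at hZ
            apply hq2
            rw [eval₂_eval]
            exact hZ G' hG' hGh
          · intro i j
            obtain ⟨a, ha⟩ := Projectivization.exists_smul_eq_mk_rep L _ hne
            rw [← ha, hv]
            simp only [Pi.smul_apply, Units.smul_def, smul_eq_mul]
            ring
    apply Set.infinite_univ (α := ℕ)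
    refine Set.Finite.subset (Set.Finite.union (Set.Finite.union (Set.finite_lt_nat q0) hbad)
      (Set.Finite.biUnion hf fun P _ => fibre_finite' p h3 2 hb0 hb P.rep P.rep_nonzero)) hcov
  · rintro w ⟨q, hq, rfl⟩ hlen
    rw [length_Wd] at hlen
    have hlt : q0 < q := by
      by_contra hcon
      have : q = q0 := by omega
      subst this
      omega
    refine ⟨[dl D D], psq D (q - 1), by simp [psq], ?_, ?_, fun j => ?_⟩
    · refine ⟨_, List.mem_map.2 ⟨0, List.mem_range.2 hDpos, rfl⟩, by simp⟩
    · rw [pumped_psq, Nat.sub_add_cancel (by omega)]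
    · exact ⟨q - 1 + j, by omega, pumped_psq D (q - 1) j⟩
  · rintro w ⟨q, _, rfl⟩
    exact countP_Wd D q
  · refine ⟨⟨0, ?_⟩, ?_⟩
    · rintro w ⟨q, _, rfl⟩
      exact (countP_Wd D q).le
    · rintro w ⟨q, hq, rfl⟩
      refine ⟨hval q hq, ?_⟩
      rw [hv]
      intro G hG hd
      rw [← eval₂_eval, h1 G hG hd, Polynomial.eval_zero]

/-- **The equivalence.** -/
theorem digit_main [NumberField K] (σ : K →+* ℂ) (I I' : Ideal (MvPolynomial (Fin (N + 1)) K)) :
    List.TFAE [NoRat σ I I', DigitShort I I', DigitFinite I I'] ∧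
    (Hyperbolic σ I I' → DigitShort I I') ∧ (Finiteness I I' → DigitShort I I') := by
  refine ⟨?_, fun h => digitShort_of_noRat (noRatNF_of σ (noRat_of_hyp σ h)), fun h =>
    digitShort_of_noRat (noRat_of_fin (fin_of_finiteness h))⟩
  tfae_have 1 → 2 := fun h => digitShort_of_noRat (noRatNF_of σ h)
  tfae_have 2 → 3 := digitFinite_of_short
  tfae_have 3 → 1 := fun h => noRat_of_NF σ (noRat_of_digitFinite h)
  tfae_finish

end Pool.Agent.V11322.LG
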